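import Pool.Agent.J4H34.HF.H9

set_option autoImplicit false

/-!
# Project LG (helper4): Laguerre inequalities of all orders of completed L-functions, statements

`lag X m t` is the `m`-th derivative at `a = 0` of `|X(1/2 + a + it)|²`.
-/

namespace Pool.Agent.J4H4.LG

open Complex Set
open scoped ComplexConjugate
open Pool.Agent.J4H34.HF (DR Xi cond GrC)

/-- the `m`-th derivative at `a = 0` of the function `a ↦ |X(1/2 + a + it)|²` of the real variable `a` -/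
noncomputable def lag (X : ℂ → ℂ) (m : ℕ) (t : ℝ) : ℝ := iteratedDeriv m (fun a : ℝ => ‖X (1 / 2 + a + t * I)‖ ^ 2) 0

/-- The criterion. PROOF: let `u ^ 2 * ε = 1`, `f z = u * X (1/2 + I z)`; this is an `EG` function (as `J4H1.JL.xr_eg`), so it
is a locally uniform limit of real polynomials `P_N` without nonreal roots (`J4H1.JL.t_had2`) if all zeros of `X` are on the line;
`‖X (1/2 + a + t I)‖² = f (t - I a) f (t + I a)` is the limit of `P_N(t - I a) P_N(t + I a) = c² ∏ ((t - x_j)² + a²)`, whose Taylor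
coefficients in `a` are nonnegative. Conversely all coefficients `c_j ≥ 0` and a zero at `a ≠ 0` give `c_j = 0` for all `j`, hence `X = 0`. -/
def S_crit : Prop := ∀ (X : ℂ → ℂ) (ε : ℂ), Differentiable ℂ X → ‖ε‖ = 1 → (∀ s, X s = ε * conj (X (1 - conj s))) →
  GrC X → (∃ s, X s ≠ 0) →
  ((∀ s, X s = 0 → s.re = 1 / 2) ↔ ∀ (t : ℝ) (m : ℕ), 0 ≤ lag X m t) ∧
  ∀ t : ℝ, (∀ m : ℕ, 0 ≤ lag X m t) → MonotoneOn (fun a : ℝ => ‖X (1 / 2 + a + t * I)‖) (Ici 0)

/-- The threshold `1/2` for all L-functions of degree `m` with a Rankin-Selberg bound. -/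
def S_thr : Prop := ∀ (m : ℕ), 1 ≤ m → ∀ K η : ℝ, 0 ≤ K → 0 < η → ∃ C₀ : ℝ,
  ∀ (N : ℝ) (μ : Fin m → ℂ) (α : Fin m → ℕ → ℂ) (ε : ℂ) (Λ : ℂ → ℂ), DR K N μ α ε Λ →
  ∀ (t : ℝ) (j : ℕ), (1 / 2 + η) * Real.log (cond N μ t) + C₀ ≤ j → 0 ≤ lag (Xi N Λ) j t ∧ (Even j → 0 < lag (Xi N Λ) j t)

end Pool.Agent.J4H4.LG
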