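import Pool.Agent.J4H4.LA.Pos2
import Pool.Agent.J4H4.LG.Stm

set_option autoImplicit false

/-!
# Basic facts: the function `FG f w = f w * conj (f (conj w))`
-/

namespace Pool.Agent.J4H4.LG

open Complex Set Filter Topology
open scoped ComplexConjugate
open Pool.Agent.J4H4.LA (Prf)

noncomputable section

/-- `X` seen from `1/2 + it` -/
def fx (X : ℂ → ℂ) (t : ℝ) (w : ℂ) : ℂ := X (1 / 2 + t * I + w)

def FG (f : ℂ → ℂ) (w : ℂ) : ℂ := f w * conj (f (conj w))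

/-- the symmetry -/
def Sf (f : ℂ → ℂ) : Prop := ∃ ε : ℂ, ‖ε‖ = 1 ∧ ∀ w, f w = ε * conj (f (-conj w))

lemma fx_diff {X : ℂ → ℂ} (hX : Differentiable ℂ X) (t : ℝ) : Differentiable ℂ (fx X t) :=
  hX.comp (by fun_prop)

lemma fx_sf {X : ℂ → ℂ} {ε : ℂ} (hε : ‖ε‖ = 1) (h : ∀ s, X s = ε * conj (X (1 - conj s))) (t : ℝ) : Sf (fx X t) := by
  refine ⟨ε, hε, fun w => ?_⟩
  unfold fx
  rw [h]
  congr 3
  simp only [map_add, map_mul, map_div₀, map_one, map_ofNat, conj_ofReal, conj_I]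
  ring

variable {f : ℂ → ℂ}

lemma conj_diff (hf : Differentiable ℂ f) (w : ℂ) :
    HasDerivAt (fun w : ℂ => conj (f (conj w))) (conj (deriv f (conj w))) w := by
  have h4 := ((hf (conj w)).hasDerivAt).conj_conj
  rw [Complex.conj_conj] at h4
  exact h4

lemma FG_diff (hf : Differentiable ℂ f) : Differentiable ℂ (FG f) := fun w =>
  (hf w).mul (conj_diff hf w).differentiableAt

lemma FG_ev (hs : Sf f) (w : ℂ) : FG f (-w) = FG f w := by
  obtain ⟨ε, hε, h⟩ := hs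
  unfold FG
  have h1 := h (-w)
  have h2 := h w
  rw [map_neg, neg_neg] at h1
  rw [map_neg]
  have h3 : conj ε * ε = 1 := by
    rw [mul_comm, mul_conj, normSq_eq_norm_sq, hε]
    simp
  have h4 : conj (f (-conj w)) = conj ε * f w := by
    rw [h2]
    linear_combination -(conj (f (-conj w))) * h3
  rw [h1, h4]
  linear_combination (f w * conj (f (conj w))) * h3

lemma FG_cj (w : ℂ) : FG f (conj w) = conj (FG f w) := by
  unfold FG
  rw [map_mul, Complex.conj_conj, Complex.conj_conj, mul_comm]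

lemma FG_real (x : ℝ) : FG f x = ((‖f x‖ ^ 2 : ℝ) : ℂ) := by
  unfold FG
  rw [conj_ofReal, mul_conj, normSq_eq_norm_sq]

lemma FG_ld (hf : Differentiable ℂ f) {w : ℂ} (h1 : f w ≠ 0) (h2 : f (conj w) ≠ 0) :
    logDeriv (FG f) w = logDeriv f w + conj (logDeriv f (conj w)) := by
  have h3 := conj_diff hf w
  have e : FG f = fun w => f w * conj (f (conj w)) := rfl
  rw [e, logDeriv_mul (f := f) (g := fun w => conj (f (conj w))) w h1 ((map_ne_zero _).mpr h2)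
    (hf w) h3.differentiableAt]
  congr 1
  rw [logDeriv_apply, h3.deriv, logDeriv_apply, map_div₀]

/-- hypotheses on `f` -/
structure Hp (f : ℂ → ℂ) (ℓ r δ κ : ℝ) (m : ℕ) : Prop where
  df : Differentiable ℂ f
  sf : Sf f
  rg : ∀ w : ℂ, (1 - 2 * δ) * r ≤ w.re → w.re ≤ 3 * r → |w.im| ≤ 3 * r →
    f w ≠ 0 ∧ ‖logDeriv f w - ((ℓ / 2 : ℝ) : ℂ)‖ ≤ κ * ℓ / 2
  nr : ∀ w : ℂ, 0 ≤ w.re → w.re ≤ (1 - 2 * δ) * r → |w.im| ≤ 2 * r →
    ‖f w‖ ≤ Real.exp (κ * m / 2) * ‖f (((1 - 2 * δ) * r : ℝ) + w.im * I)‖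

lemma Hp.prf {ℓ r δ κ : ℝ} {m : ℕ} (H : Hp f ℓ r δ κ m) : Prf (FG f) ℓ r δ κ m := by
  refine ⟨FG_diff H.df, FG_ev H.sf, FG_cj, fun w h1 h2 h3 => ?_, fun w h1 h2 h3 => ?_⟩
  · obtain ⟨a1, a2⟩ := H.rg w h1 h2 h3
    obtain ⟨b1, b2⟩ := H.rg (conj w) (by rwa [conj_re]) (by rwa [conj_re]) (by rwa [conj_im, abs_neg])
    refine ⟨?_, ?_⟩
    · exact mul_ne_zero a1 ((map_ne_zero _).mpr b1)
    · rw [FG_ld H.df a1 b1]
      have e : logDeriv f w + conj (logDeriv f (conj w)) - ℓ =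
          (logDeriv f w - ((ℓ / 2 : ℝ) : ℂ)) + conj (logDeriv f (conj w) - ((ℓ / 2 : ℝ) : ℂ)) := by
        rw [map_sub, conj_ofReal]
        push_cast
        ring
      rw [e]
      refine (norm_add_le _ _).trans ?_
      rw [Complex.norm_conj]
      linarith
  · have a1 := H.nr w h1 h2 h3
    have b1 := H.nr (conj w) (by rwa [conj_re]) (by rwa [conj_re]) (by rwa [conj_im, abs_neg])
    have e : (((1 - 2 * δ) * r : ℝ) : ℂ) + (conj w).im * I =
        conj ((((1 - 2 * δ) * r : ℝ) : ℂ) + w.im * I) := by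
      rw [conj_im]
      simp only [map_add, map_mul, conj_ofReal, conj_I]
      push_cast
      ring
    rw [e] at b1
    unfold FG
    rw [norm_mul, norm_mul, Complex.norm_conj, Complex.norm_conj]
    calc ‖f w‖ * ‖f (conj w)‖ ≤ (Real.exp (κ * m / 2) * ‖f ((((1 - 2 * δ) * r : ℝ) : ℂ) + w.im * I)‖) *
          (Real.exp (κ * m / 2) * ‖f (conj ((((1 - 2 * δ) * r : ℝ) : ℂ) + w.im * I))‖) := by gcongr
      _ = (Real.exp (κ * m / 2) * Real.exp (κ * m / 2)) * (‖f ((((1 - 2 * δ) * r : ℝ) : ℂ) + w.im * I)‖ *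
          ‖f (conj ((((1 - 2 * δ) * r : ℝ) : ℂ) + w.im * I))‖) := by
          generalize ‖f ((((1 - 2 * δ) * r : ℝ) : ℂ) + w.im * I)‖ = A1
          generalize ‖f (conj ((((1 - 2 * δ) * r : ℝ) : ℂ) + w.im * I))‖ = A2
          ring
      _ = _ := by rw [← Real.exp_add]; congr 2; ring

/-- the constant -/
def kap (δ : ℝ) : ℝ := (δ / 1000000) * δ / 10

theorem Hp.pos {ℓ r δ : ℝ} {m : ℕ} (H : Hp f ℓ r δ (kap δ) m) (hδ : 0 < δ) (hδ' : δ ≤ 1 / 4) (hr : 0 < r)
    (hℓ : ℓ * r = m) (hm1 : 1000000000000 ≤ (m : ℝ)) (hm2 : 10000 / δ ^ 2 ≤ (m : ℝ)) (hme : Even m) :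
    0 < (iteratedDeriv m (FG f) 0).re := by
  refine H.prf.pos hδ' hδ hr hℓ rfl hm1 hm2 hme ?_
  rw [FG_real, ofReal_re]
  have h1 := (H.rg (r : ℂ) (by rw [ofReal_re]; nlinarith) (by rw [ofReal_re]; linarith)
    (by rw [ofReal_im, abs_zero]; linarith)).1
  have := norm_pos_iff.mpr h1
  positivity

/-- derivatives of a real function which is the restriction of an entire function -/
lemma iter_re {F : ℂ → ℂ} (hF : Differentiable ℂ F) {g : ℝ → ℝ} (hg : ∀ x : ℝ, g x = (F x).re) (m : ℕ) (x : ℝ) :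
    iteratedDeriv m g x = (iteratedDeriv m F x).re := by
  induction m generalizing x with
  | zero => rw [iteratedDeriv_zero, iteratedDeriv_zero, hg]
  | succ m ih =>
    have hd : Differentiable ℂ (iteratedDeriv m F) :=
      (hF.contDiff (n := ⊤)).differentiable_iteratedDeriv m (by exact_mod_cast WithTop.coe_lt_top _)
    rw [iteratedDeriv_succ, iteratedDeriv_succ]
    have e : iteratedDeriv m g = fun x : ℝ => (iteratedDeriv m F x).re := funext ih
    rw [e]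
    have h1 := ((hd (x : ℂ)).hasDerivAt).real_of_complex
    exact h1.deriv

lemma lag_eq {X : ℂ → ℂ} (hX : Differentiable ℂ X) (m : ℕ) (t : ℝ) :
    lag X m t = (iteratedDeriv m (FG (fx X t)) 0).re := by
  unfold lag
  have h := iter_re (FG_diff (fx_diff hX t)) (g := fun a : ℝ => ‖X (1 / 2 + a + t * I)‖ ^ 2) (fun x => by
    rw [FG_real, ofReal_re]
    unfold fx
    congr 3
    ring) m 0
  rw [h, ofReal_zero]

/-- derivatives of even functions -/
lemma lag_odd {X : ℂ → ℂ} (hX : Differentiable ℂ X) (hs : ∀ t, Sf (fx X t)) {m : ℕ} (hm : ¬ Even m) (t : ℝ) :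
    lag X m t = 0 := by
  rw [lag_eq hX]
  have h1 : (fun w => FG (fx X t) (-w)) = FG (fx X t) := funext (FG_ev (hs t))
  have h2 := iteratedDeriv_comp_neg m (FG (fx X t)) 0
  rw [h1, neg_zero, (Nat.not_even_iff_odd.mp hm).neg_one_pow, neg_smul, one_smul] at h2
  rw [self_eq_neg.mp h2, zero_re]

end

end Pool.Agent.J4H4.LG
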