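import Pool.Agent.J4H4.LG.Bas
import Pool.Agent.H353R7.G5

set_option autoImplicit false

/-!
# Positivity from the behaviour on the right of the strip
-/

namespace Pool.Agent.J4H4.LG

open Complex Set Filter Topology
open scoped ComplexConjugate
open H353.E H353.F

/-- a function `X = γ L` near the right of the critical strip -/
structure Core (C : ℝ) (Sg : ℝ → ℝ) (X γ D : ℂ → ℂ) (σ σ₁ Q Q' : ℝ) : Prop where
  gp : GP C Sg γ D
  diff : Differentiable ℂ X
  fe : ∃ ε : ℂ, ‖ε‖ = 1 ∧ ∀ s, X s = ε * conj (X (1 - conj s))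
  hσ : 1 ≤ σ
  hσ₁ : σ ≤ σ₁
  hQ' : 0 ≤ Q'
  ld : ∀ s : ℂ, σ₁ ≤ s.re → X s ≠ 0 ∧ ‖deriv X s / X s - D s‖ ≤ Q'
  hi : ∀ s : ℂ, σ ≤ s.re → ‖X s‖ ≤ Real.exp Q * ‖γ s‖
  lo : ∀ s : ℂ, σ ≤ s.re → ‖γ s‖ ≤ Real.exp Q * ‖X s‖
  strip : ∀ s : ℂ, 1 / 2 ≤ s.re → s.re ≤ σ → ‖X s‖ ≤ Real.exp Q * ‖γ (σ + s.im * I)‖

variable {C : ℝ} {Sg : ℝ → ℝ} {X γ D : ℂ → ℂ} {σ σ₁ Q Q' : ℝ}

lemma fx_deriv (X : ℂ → ℂ) (t : ℝ) (w : ℂ) : deriv (fx X t) w = deriv X (1 / 2 + t * I + w) := by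
  have e : fx X t = fun w => X ((1 / 2 + t * I) + w) := rfl
  rw [e, deriv_comp_const_add]

lemma fx_ld (X : ℂ → ℂ) (t : ℝ) (w : ℂ) : logDeriv (fx X t) w = deriv X (1 / 2 + t * I + w) / X (1 / 2 + t * I + w) := by
  rw [logDeriv_apply, fx_deriv]
  rfl

theorem Core.hp (H : Core C Sg X γ D σ σ₁ Q Q') {t r δ κ P : ℝ} {m : ℕ} (hκ : 0 ≤ κ) (hδ : 0 < δ) (hδ' : δ ≤ 1 / 4)
    (hr : 1 / 2 ≤ r) (hb : σ₁ ≤ 1 / 2 + (1 - 2 * δ) * r) (hP : P = (D (1 / 2 + t * I + r)).re)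
    (hm : 2 * P * r = m) (h1 : 11 * C + Q' ≤ κ * P) (h2 : 8 * Q ≤ κ * P) :
    Hp (fx X t) (2 * P) r δ κ m := by
  have hC := H.gp.C_nonneg
  have hσ := H.hσ
  have hσ₁ := H.hσ₁
  have hQ' := H.hQ'
  have hsre : ∀ w : ℂ, (1 / 2 + t * I + w : ℂ).re = 1 / 2 + w.re := fun w => by simp
  have hsim : ∀ w : ℂ, (1 / 2 + t * I + w : ℂ).im = t + w.im := fun w => by simp
  have hbr : (1 - 2 * δ) * r ≤ r := by nlinarith
  have hbr2 : r / 2 ≤ (1 - 2 * δ) * r := by nlinarith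
  obtain ⟨ε, hε, hfe⟩ := H.fe
  have hκP : 2 * C ≤ κ * P := by linarith
  have hP0 : 0 ≤ κ * P := by linarith
  refine ⟨fx_diff H.diff t, fx_sf hε hfe t, fun w w1 w2 w3 => ?_, fun w w1 w2 w3 => ?_⟩
  · obtain ⟨a1, a2⟩ := H.ld (1 / 2 + t * I + w) (by rw [hsre]; linarith)
    refine ⟨a1, ?_⟩
    rw [fx_ld]
    have e : deriv X (1 / 2 + t * I + w) / X (1 / 2 + t * I + w) - ((2 * P / 2 : ℝ) : ℂ) =
        (deriv X (1 / 2 + t * I + w) / X (1 / 2 + t * I + w) - D (1 / 2 + t * I + w)) +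
        (D (1 / 2 + t * I + w) - D (1 / 2 + t * I + r)) + (D (1 / 2 + t * I + r) - (P : ℂ)) := by
      rw [mul_div_cancel_left₀ _ (two_ne_zero : (2 : ℝ) ≠ 0)]
      ring
    rw [e]
    have b1 : ‖D (1 / 2 + t * I + w) - D (1 / 2 + t * I + r)‖ ≤ 10 * C := by
      set ρ : ℝ := max 1 (1 / 2 + r / 2) with hρ
      have hρ1 : 1 ≤ ρ := le_max_left _ _
      have hρ2 : 1 / 2 + r / 2 ≤ ρ := le_max_right _ _
      have h3 := H.gp.lipD hρ1 (s := 1 / 2 + t * I + w) (t := 1 / 2 + t * I + r) (by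
        rw [hsre, hρ]
        exact max_le (by linarith) (by linarith)) (by
        rw [hsre, ofReal_re, hρ]
        exact max_le (by linarith) (by linarith))
      refine h3.trans ?_
      have e2 : (1 / 2 + t * I + w : ℂ) - (1 / 2 + t * I + r) = w - r := by ring
      rw [e2]
      have h4 : ‖w - (r : ℂ)‖ ≤ 5 * r := by
        refine (Complex.norm_le_abs_re_add_abs_im _).trans ?_
        rw [sub_re, sub_im, ofReal_re, ofReal_im, sub_zero]
        have : |w.re - r| ≤ 2 * r := by rw [abs_le]; constructor <;> nlinarith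
        linarith
      have h5 : C / ρ * ‖w - (r : ℂ)‖ ≤ C / ρ * (5 * r) := by gcongr
      refine h5.trans ?_
      rw [div_mul_eq_mul_div, div_le_iff₀ (by linarith)]
      nlinarith
    have b2 : ‖D (1 / 2 + t * I + r) - (P : ℂ)‖ ≤ C := by
      have e2 : D (1 / 2 + t * I + r) - (P : ℂ) = ((D (1 / 2 + t * I + r)).im : ℂ) * I := by
        rw [hP]
        apply Complex.ext <;> simp
      rw [e2, norm_mul, norm_I, mul_one, Complex.norm_real]
      exact H.gp.im _ (by rw [hsre, ofReal_re]; linarith)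
    have b3 := norm_add₃_le (a := deriv X (1 / 2 + t * I + w) / X (1 / 2 + t * I + w) - D (1 / 2 + t * I + w))
      (b := D (1 / 2 + t * I + w) - D (1 / 2 + t * I + r)) (c := D (1 / 2 + t * I + r) - (P : ℂ))
    have e3 : κ * (2 * P) / 2 = κ * P := by ring
    rw [e3]
    linarith
  · set b := (1 - 2 * δ) * r with hbd
    have hmul : ∀ s : ℂ, 1 ≤ s.re → s.re ≤ 1 / 2 + b →
        ‖γ s‖ ≤ Real.exp (C * b) * ‖γ (((1 / 2 + b : ℝ) : ℂ) + s.im * I)‖ := fun s hs1 hs2 => by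
      have h5 := right_ge H.gp hs1 (a := 1 / 2 + b - s.re) (by linarith)
      have e : s + ((1 / 2 + b - s.re : ℝ) : ℂ) = ((1 / 2 + b : ℝ) : ℂ) + s.im * I := by
        apply Complex.ext
        · simp
        · simp
      rw [e] at h5
      refine h5.trans ?_
      have : C * (1 / 2 + b - s.re) ≤ C * b := by gcongr; linarith
      gcongr
    set s : ℂ := 1 / 2 + t * I + w with hs
    have hs1 : s.re = 1 / 2 + w.re := hsre w
    have hs2 : s.im = t + w.im := hsim w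
    have hfin : ‖X s‖ ≤ Real.exp Q * (Real.exp (C * b) * ‖γ (((1 / 2 + b : ℝ) : ℂ) + s.im * I)‖) := by
      rcases le_total σ s.re with h | h
      · refine (H.hi s h).trans ?_
        have := hmul s (by linarith) (by linarith)
        gcongr
      · refine (H.strip s (by linarith) h).trans ?_
        have := hmul ((σ : ℂ) + s.im * I) (by simp; linarith) (by simp; linarith)
        have e : ((σ : ℂ) + s.im * I).im = s.im := by simp
        rw [e] at this
        gcongr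
    have hlo := H.lo (((1 / 2 + b : ℝ) : ℂ) + s.im * I) (by simp; linarith)
    have e3 : fx X t ((b : ℂ) + w.im * I) = X (((1 / 2 + b : ℝ) : ℂ) + s.im * I) := by
      unfold fx
      rw [hs2]
      congr 1
      push_cast
      ring
    show ‖X s‖ ≤ _
    rw [e3]
    calc ‖X s‖ ≤ Real.exp Q * (Real.exp (C * b) * ‖γ (((1 / 2 + b : ℝ) : ℂ) + s.im * I)‖) := hfin
      _ ≤ Real.exp Q * (Real.exp (C * b) * (Real.exp Q * ‖X (((1 / 2 + b : ℝ) : ℂ) + s.im * I)‖)) := by gcongr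
      _ = Real.exp (Q + C * b + Q) * ‖X (((1 / 2 + b : ℝ) : ℂ) + s.im * I)‖ := by
          rw [Real.exp_add, Real.exp_add]; ring
      _ ≤ Real.exp (κ * m / 2) * ‖X (((1 / 2 + b : ℝ) : ℂ) + s.im * I)‖ := by
          have h6 : Q + C * b + Q ≤ κ * m / 2 := by
            rw [← hm]
            have h7 : C * b ≤ C * r := by gcongr
            have h8 : 2 * C * r ≤ κ * P * r := by gcongr
            have h9 : κ * P * (1 / 2) ≤ κ * P * r := by gcongr
            have h10 : 8 * Q * (1 / 2) ≤ κ * P * (1 / 2) := by linarith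
            have e4 : κ * (2 * P * r) / 2 = κ * P * r := by ring
            rw [e4]
            linarith
          gcongr

/-- the radius -/
lemma exists_rad2 (gp : GP C Sg γ D) {t r₀ m : ℝ} (hr₀ : 1 / 2 ≤ r₀) (hm : 0 < m)
    (h0 : 2 * (D (1 / 2 + t * I + r₀)).re * r₀ ≤ m) :
    ∃ r : ℝ, r₀ ≤ r ∧ 2 * (D (1 / 2 + t * I + r)).re * r = m := by
  set R : ℝ := max r₀ (max (Sg 1) m) with hR
  have hR1 : r₀ ≤ R := le_max_left _ _
  have hR2 : Sg 1 ≤ R := (le_max_left _ _).trans (le_max_right _ _)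
  have hR3 : m ≤ R := (le_max_right _ _).trans (le_max_right _ _)
  have hre : ∀ r : ℝ, (1 / 2 + t * I + (r : ℂ)).re = 1 / 2 + r := fun r => by simp
  have hcont : ContinuousOn (fun r : ℝ => 2 * (D (1 / 2 + t * I + r)).re * r) (Icc r₀ R) := by
    intro r hr
    have h1 : ContinuousAt D (1 / 2 + t * I + (r : ℂ)) := gp.contD (by rw [hre]; linarith [hr.1])
    have h2 : ContinuousAt (fun r : ℝ => (1 / 2 + t * I + (r : ℂ) : ℂ)) r := by fun_prop
    have h3 : ContinuousAt (fun r : ℝ => D (1 / 2 + t * I + r)) r := ContinuousAt.comp (f := fun r : ℝ =>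
      (1 / 2 + t * I + (r : ℂ) : ℂ)) h1 h2
    have h4 : ContinuousAt (fun r : ℝ => (D (1 / 2 + t * I + r)).re) r := continuous_re.continuousAt.comp h3
    exact ((continuousAt_const.mul h4).mul continuousAt_id).continuousWithinAt
  have hup : m ≤ 2 * (D (1 / 2 + t * I + R)).re * R := by
    have h1 := gp.gr 1 (1 / 2 + t * I + (R : ℂ)) (by rw [hre]; linarith) (by rw [hre]; linarith)
    nlinarith
  obtain ⟨r, hr, hre'⟩ := intermediate_value_Icc hR1 hcont (show m ∈ Icc _ _ from ⟨h0, hup⟩)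
  exact ⟨r, hr.1, hre'⟩

/-- the main term is large -/
lemma large_P (gp : GP C Sg γ D) {t r m P P₀ : ℝ} (hr : 1 / 2 ≤ r) (hP : P = (D (1 / 2 + t * I + r)).re)
    (hm : 2 * P * r = m) (hP₀ : 0 < P₀) (hm1 : 2 * P₀ * (1 + |Sg P₀|) ≤ m) : P₀ ≤ P := by
  by_contra hcon
  push Not at hcon
  have hs := abs_nonneg (Sg P₀)
  have hm0 : 0 < m := by
    have : 0 < 2 * P₀ * (1 + |Sg P₀|) := by positivity
    linarith
  have hPp : 0 < P := by
    by_contra h
    push Not at h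
    nlinarith
  have h1 : 1 + |Sg P₀| ≤ r := by
    by_contra h
    push Not at h
    have : 2 * P * r < 2 * P₀ * (1 + |Sg P₀|) := by
      calc 2 * P * r < 2 * P * (1 + |Sg P₀|) := by
            apply mul_lt_mul_of_pos_left h (by positivity)
        _ ≤ 2 * P₀ * (1 + |Sg P₀|) := by gcongr
    linarith
  have h2 := gp.gr P₀ (1 / 2 + t * I + (r : ℂ)) (by simp; linarith) (by
    have := le_abs_self (Sg P₀)
    simp
    linarith)
  rw [← hP] at h2
  linarith

end Pool.Agent.J4H4.LG
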