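import Pool.Agent.J4H4.LG.Bas
import Pool.Agent.J4H34.CD.Z8

set_option autoImplicit false

/-!
# Positivity at the good heights of `J4H34/CD`
-/

namespace Pool.Agent.J4H4.LG

open Complex Set Filter Topology
open scoped ComplexConjugate
open H353.E H353.F
open Pool.Agent.J4H34.CD (Gd Gs fc Sy)

variable {Ψ P : ℂ → ℂ} {n : ℕ} {δ κ G X : ℝ}

lemma FG_fe {ε : ℂ} (hε : ‖ε‖ = 1) (h : ∀ s : ℂ, Ψ s = ε * conj (Ψ (1 - conj s))) (s : ℂ) :
    FG Ψ s = conj (FG Ψ (1 - conj s)) := by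
  have h3 : conj ε * ε = 1 := by
    rw [mul_comm, mul_conj, normSq_eq_norm_sq, hε]
    simp
  have h1 := h s
  have h2 := h (conj s)
  rw [Complex.conj_conj] at h2
  unfold FG
  rw [map_mul, Complex.conj_conj, map_sub, map_one, Complex.conj_conj]
  have h4 : conj (Ψ (conj s)) = conj ε * Ψ (1 - s) := by
    rw [h2, map_mul, Complex.conj_conj]
  rw [h4, h1]
  linear_combination (conj (Ψ (1 - conj s)) * Ψ (1 - s)) * h3

/-- doubling -/
theorem dbl (L : Loc Ψ P n δ κ G 0 X) :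
    Loc (FG Ψ) (fun u => P u + conj (P (conj u))) (2 * n) δ κ (G ^ 2) 0 0 := by
  have hcc : ∀ u : ℂ, conj (cc 0 + u) = cc 0 + conj u := fun u => by
    unfold cc
    simp [map_ofNat]
  have hcn : ((2 * n : ℕ) : ℝ) = 2 * n := by push_cast; ring
  have hcnc : ((2 * n : ℕ) : ℂ) = n + n := by push_cast; ring
  have hX := L.hX
  have hn := L.hn
  obtain ⟨ε, hε, hfe⟩ := L.fe
  refine
    { diff := FG_diff L.diff, fe := ⟨1, norm_one, fun s => by rw [one_mul]; exact FG_fe hε hfe s⟩,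
      der := fun u h1 h2 h3 => ?_, dP := fun u h1 h2 h3 => ?_, ddP := fun u h1 h2 h3 => ?_,
      up := fun u h1 h2 => ?_, lo := fun x h1 h2 => ?_, hG := ?_, hδ := L.hδ, hδ' := L.hδ', hκ := L.hκ,
      hκ' := L.hκ', hX := le_rfl, hn := ?_, hnδ := ?_ }
  · have a1 := L.der u h1 (by linarith) h3
    have a2 := L.der (conj u) (by rwa [conj_re]) (by rw [conj_re]; linarith) (by rwa [conj_im, abs_neg])
    rw [← hcc] at a2
    have a3 := a2.conj_conj
    rw [Complex.conj_conj] at a3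
    have a4 := a1.mul a3
    have e : FG Ψ = Ψ * (⇑(starRingEnd ℂ) ∘ Ψ ∘ ⇑(starRingEnd ℂ)) := rfl
    rw [e]
    refine a4.congr_deriv ?_
    simp only [Pi.mul_apply, Function.comp, map_mul]
    ring
  · have a1 := L.dP u h1 (by linarith) h3
    have a2 := L.dP (conj u) (by rwa [conj_re]) (by rw [conj_re]; linarith) (by rwa [conj_im, abs_neg])
    have e : P u + conj (P (conj u)) - ((2 * n : ℕ) : ℂ) = (P u - n) + conj (P (conj u) - n) := by
      rw [hcnc, map_sub, Complex.conj_natCast]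
      ring
    rw [e, hcn]
    refine (norm_add_le _ _).trans ?_
    rw [Complex.norm_conj]
    linarith
  · obtain ⟨d1, a1, b1⟩ := L.ddP u h1 (by linarith) h3
    obtain ⟨d2, a2, b2⟩ := L.ddP (conj u) (by rwa [conj_re]) (by rw [conj_re]; linarith) (by rwa [conj_im, abs_neg])
    have a3 := a2.conj_conj
    rw [Complex.conj_conj] at a3
    refine ⟨d1 + conj d2, a1.add a3, ?_⟩
    rw [hcn]
    refine (norm_add_le _ _).trans ?_
    rw [Complex.norm_conj]
    linarith
  · have a1 := L.up u (by linarith) h2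
    have a2 := L.up (conj u) (by rw [conj_re]; linarith) (by rwa [conj_im, abs_neg])
    rw [conj_re] at a2
    unfold FG
    rw [norm_mul, Complex.norm_conj, hcc, hcn]
    calc ‖Ψ (cc 0 + u)‖ * ‖Ψ (cc 0 + conj u)‖ ≤ (G * Real.exp (n * max |u.re| (1 - δ) + κ * n)) *
          (G * Real.exp (n * max |u.re| (1 - δ) + κ * n)) := by
          have := L.hG
          gcongr
      _ = G ^ 2 * (Real.exp (n * max |u.re| (1 - δ) + κ * n) * Real.exp (n * max |u.re| (1 - δ) + κ * n)) := by ring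
      _ = _ := by
          rw [← Real.exp_add]
          congr 2
          ring
  · have a1 := L.lo x h1 (by linarith)
    unfold FG
    rw [norm_mul, Complex.norm_conj, hcc, conj_ofReal, hcn]
    calc G ^ 2 * Real.exp (2 * n * (x + 1) - κ * (2 * n)) =
          (G * Real.exp (n * (x + 1) - κ * n)) * (G * Real.exp (n * (x + 1) - κ * n)) := by
          have : Real.exp (2 * n * (x + 1) - κ * (2 * n)) = Real.exp (n * (x + 1) - κ * n) *
            Real.exp (n * (x + 1) - κ * n) := by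
            rw [← Real.exp_add]
            congr 1
            ring
          rw [this]
          ring
      _ ≤ _ := by
          have := L.hG
          gcongr
  · have := L.hG
    positivity
  · rw [hcn]
    linarith
  · rw [hcn]
    have := L.hnδ
    linarith

/-- positivity at a good height -/
theorem gd_pos {f : ℂ → ℂ} {y r P₀ : ℝ} (g : Gd f n y r P₀) : 0 < (iteratedDeriv (2 * n) (FG f) 0).re := by
  have hr := g.r0
  have L := dbl g.loc
  have hcc : ∀ u : ℂ, (r : ℂ) * (cc 0 + u - 1 / 2) = r * u := fun u => by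
    simp [cc]
  have eFG : FG (fun s => f (r * (s - 1 / 2))) = fun s => FG f (r * (s - 1 / 2)) := by
    funext s
    unfold FG
    simp only [map_mul, map_sub, map_div₀, map_one, map_ofNat, conj_ofReal]
  obtain ⟨ε, hε, hfe⟩ := g.loc.fe
  have key := Pool.Agent.J4H4.LA.loc_pos L (by norm_num) (fun s => FG_fe hε hfe s) (fun x h1 h2 => ?_)
    (fun x h1 h2 => ?_) (fun x h1 h2 => ?_) ⟨n, by ring⟩
  · rw [eFG, Pool.Agent.J4H4.LA.iter_scale (FG_diff g.sy.diff), ← ofReal_pow, re_ofReal_mul] at key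
    have : 0 < r ^ (2 * n) := by positivity
    exact (mul_pos_iff_of_pos_left this).mp key
  · rw [conj_ofReal, add_im, conj_im]
    ring
  · rw [eFG]
    simp only
    rw [hcc, show (r : ℂ) * x = ((r * x : ℝ) : ℂ) by push_cast; ring, FG_real, ofReal_im]
  · rw [eFG]
    simp only
    rw [hcc, show (r : ℂ) * x = ((r * x : ℝ) : ℂ) by push_cast; ring, FG_real, ofReal_re]
    have h3 : f ((r * x : ℝ) : ℂ) ≠ 0 := by
      apply g.near
      · rw [ofReal_re]
        nlinarith
      · rw [Complex.norm_real, Real.norm_eq_abs, abs_of_pos (by nlinarith)]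
        nlinarith
    have := norm_pos_iff.mpr h3
    positivity

lemma fc_fx (Ξ : ℂ → ℂ) (t : ℝ) : fc Ξ t = fx Ξ t := rfl

/-- positivity at a good height of `Ξ` -/
theorem gs_pos {Ξ : ℂ → ℂ} {Pt : ℝ → ℝ} {c₀ M y t ℓ : ℝ} (hs : Sy (fc Ξ 0)) (g : Gs Ξ Pt c₀ M n y t)
    (hy : 0 < y) (hc : 8 ≤ c₀) (hM : 80 * c₀ ≤ M) (hℓ : 0 < ℓ) (hyℓ : y * (4 * c₀ * ℓ) = n)
    (hn : 1000000000000 ≤ (n : ℝ)) (h1 : 2 / 5 * ℓ ≤ Pt t) (h2 : Pt t ≤ 3 / 5 * ℓ) (hΞ : Differentiable ℂ Ξ) :
    0 < lag Ξ (2 * n) t := by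
  have hP : 0 < Pt t := by linarith
  set r := n / Pt t with hr
  have hrP : r * Pt t = n := by rw [hr]; field_simp
  have hc0 : 0 < c₀ := by linarith
  have hr1 : 4 * c₀ * y ≤ r := by
    rw [hr, le_div_iff₀ hP, ← hyℓ]
    have : 0 < c₀ * y := by positivity
    nlinarith
  have hr2 : r ≤ 10 * c₀ * y := by
    rw [hr, div_le_iff₀ hP, ← hyℓ]
    have : 0 < c₀ * y := by positivity
    nlinarith
  have hr3 : 20 / 3 * c₀ * y ≤ r := by
    rw [hr, le_div_iff₀ hP, ← hyℓ]
    have : 0 < c₀ * y := by positivity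
    nlinarith
  have G : Gd (fc Ξ t) n y r (Pt t) := by
    refine ⟨J4H34.CD.fc_sy hs t, hy, ?_, hrP, hn, g.zer, g.nag, fun w h3 h4 => g.ld w ?_ ?_⟩
    · nlinarith
    · nlinarith
    · refine h4.trans ?_
      nlinarith
  rw [lag_eq hΞ, ← fc_fx]
  exact gd_pos G

end Pool.Agent.J4H4.LG
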