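import Pool.Agent.J4H4.LG.Dbl
import Pool.Agent.J4H34.CD.Z13

set_option autoImplicit false

/-!
# Laguerre inequalities in a family: the measure of the exceptional heights
-/

open Complex Set Filter Topology MeasureTheory
open scoped ComplexConjugate Nat

namespace Pool.Agent.J4H4.LG

open Pool.Agent.J4H34.CD

/-- the heights where the inequality of order `2n` fails -/
def bad1 (Ξ : ℂ → ℂ) (n : ℕ) (T : ℝ) : Set ℝ := {t : ℝ | T ≤ t ∧ t ≤ 2 * T ∧ ¬ 0 < lag Ξ (2 * n) t}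

lemma bad1_sub (Ξ : ℂ → ℂ) (n : ℕ) (T : ℝ) : bad1 Ξ n T ⊆ Icc T (2 * T) := fun _ h => ⟨h.1, h.2.1⟩

/-- a cell -/
def cell (y : ℝ) (q : ℤ) : Set ℝ := Ico (q * y) ((q + 1) * y)

lemma cell_vol {y : ℝ} (hy : 0 ≤ y) (q : ℤ) : volume.real (cell y q) = y := by
  unfold cell
  rw [Real.volume_real_Ico, add_mul, one_mul, add_sub_cancel_left]
  exact max_eq_left hy

lemma cells_vol {y : ℝ} (hy : 0 < y) (B : Finset ℤ) {E : Set ℝ}
    (h : ∀ t ∈ E, ⌊t / y⌋ ∈ B) : volume.real E ≤ y * (B.card : ℝ) := by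
  have h1 : E ⊆ ⋃ q ∈ B, cell y q := by
    intro t ht
    simp only [mem_iUnion]
    refine ⟨⌊t / y⌋, h t ht, ?_, ?_⟩
    · rw [← le_div_iff₀ hy]
      exact Int.floor_le _
    · rw [← div_lt_iff₀ hy]
      exact Int.lt_floor_add_one _
  have hfin : volume (⋃ q ∈ B, cell y q) ≠ ⊤ := by
    refine ne_of_lt ((measure_biUnion_finset_le B (cell y)).trans_lt ?_)
    rw [ENNReal.sum_lt_top]
    intro q _
    unfold cell
    rw [Real.volume_Ico]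
    exact ENNReal.ofReal_lt_top
  have h2 := measureReal_mono (μ := volume) h1 hfin
  refine h2.trans ((measureReal_biUnion_finset_le B (cell y)).trans ?_)
  rw [Finset.sum_congr rfl fun q _ => cell_vol hy.le q, Finset.sum_const, nsmul_eq_mul, mul_comm]

lemma diff_of_fc {Ξ : ℂ → ℂ} (h : Sy (fc Ξ 0)) : Differentiable ℂ Ξ := by
  have h1 := h.diff
  have e : Ξ = fun s => fc Ξ 0 (s - (1 / 2 + (0 : ℝ) * I)) := by
    funext s
    unfold fc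
    rw [add_sub_cancel]
  rw [e]
  exact h1.comp (by fun_prop)

/-- **one order** -/
theorem fam_one (c A : ℝ) (hc : 0 < c) (hA : 1 ≤ A) : ∃ A' c' n₁ : ℝ, 0 < A' ∧ 0 < c' ∧
    ∀ {X : Type} {S : Finset X} {Ξ D : X → ℂ → ℂ} {lam : X → ℕ → ℂ} {Zr : X → Finset ℂ}
    {g : X → ℝ → ℝ → ℂ} {C ℓ T 𝒵 : ℝ}, Fm S Ξ D lam Zr g c A C ℓ T 𝒵 →
    ∀ n : ℕ, n₁ ≤ n → (n : ℝ) ≤ ℓ →
      ∑ χ ∈ S, volume.real (bad1 (Ξ χ) n T) ≤ A' * 𝒵 * Real.exp (-(c' * n)) := by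
  classical
  have hd := dl_pos
  have hK3 := K3_pos
  obtain ⟨κ, hκ⟩ : ∃ κ : ℝ, κ = min (c / 8) (1 / 240) := ⟨_, rfl⟩
  have hκ0 : 0 < κ := by rw [hκ]; positivity
  have hκ1 : κ ≤ c / 8 := by rw [hκ]; exact min_le_left _ _
  have hκ2 : κ ≤ 1 / 240 := by rw [hκ]; exact min_le_right _ _
  obtain ⟨Kz, hKz⟩ : ∃ Kz : ℝ, Kz = 88 * (4 * 10 ^ 36) * (8 / c ^ 2) := ⟨_, rfl⟩
  have hKz0 : 0 < Kz := by rw [hKz]; positivity
  obtain ⟨Gc, hGc⟩ : ∃ Gc : ℝ, Gc = Real.exp c / (1 - Real.exp (-(c / 2))) := ⟨_, rfl⟩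
  have hGc0 : 0 < Gc := by
    rw [hGc]
    have : Real.exp (-(c / 2)) < 1 := by rw [Real.exp_lt_one_iff]; linarith
    have : 0 < 1 - Real.exp (-(c / 2)) := by linarith
    positivity
  obtain ⟨m, hm⟩ : ∃ m : ℝ, m = 300 * A / dl ^ 2 + 160 * A / dl + 240 := ⟨_, rfl⟩
  have hm1 : 0 < 300 * A / dl ^ 2 := by positivity
  have hm2 : 0 < 160 * A / dl := by positivity
  refine ⟨(Kz * Gc + K3 * Real.exp 1) * (2 / κ),
    κ / (8 * 10 ^ 36), 10 ^ 12 + 4 * 10 ^ 36 * m + 5 * A / dl, by positivity, by positivity, ?_⟩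
  intro X S Ξ D lam Zr g C ℓ T 𝒵 h n hn1 hnℓ
  have hℓ := h.ℓpos
  have hℓ0 : 0 < ℓ := by linarith
  have hT := h.hT
  have h𝒵 := h.h𝒵
  have hC := h.hC
  have hCℓ := h.hℓ
  have h5A : 0 < 5 * A / dl := by positivity
  have hn12 : 1000000000000 ≤ (n : ℝ) := by nlinarith
  have hnm : 4 * 10 ^ 36 * m ≤ n := by nlinarith
  have hA5 : 5 * A ≤ dl * ℓ := by
    have h1 : 5 * A / dl ≤ ℓ := by nlinarith
    rw [div_le_iff₀ hd] at h1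
    linarith
  set x : ℝ := n / (4 * 10 ^ 36) with hx
  have hxm : m ≤ x := by rw [hx, le_div_iff₀ (by norm_num)]; linarith
  set y : ℝ := x / ℓ with hy
  have hx1 : 240 ≤ x := by linarith
  have hy0 : 0 < y := by positivity
  have hyx : y * ℓ = x := by rw [hy]; field_simp
  have hyℓ : y * (4 * 10 ^ 36 * ℓ) = n := by
    rw [show y * (4 * 10 ^ 36 * ℓ) = 4 * 10 ^ 36 * (y * ℓ) by ring, hyx, hx]
    field_simp
  have hy2 : y ≤ 2 := by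
    rw [hy, div_le_iff₀ hℓ0, hx, div_le_iff₀ (by norm_num)]
    nlinarith
  have hPt : ∀ χ ∈ S, ∀ t, T ≤ t → t ≤ 2 * T → 10 ^ 55 * C ≤ Pd (D χ) t := fun χ hχ t h1 h2 => by
    have := (h.hP χ hχ t h1 h2).1
    linarith
  -- the bad cells
  set B : X → Finset ℤ := fun χ => (Finset.Icc ⌊T / y⌋ ⌊2 * T / y⌋).filter
    fun q => ∃ t : ℝ, T ≤ t ∧ t ≤ 2 * T ∧ ⌊t / y⌋ = q ∧
      ¬ Gs (Ξ χ) (Pd (D χ)) (10 ^ 36) (10 ^ 45) n y t with hB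
  have hvol : ∀ χ ∈ S, volume.real (bad1 (Ξ χ) n T) ≤ y * ((B χ).card : ℝ) := by
    intro χ hχ
    have L := h.ld χ hχ
    apply cells_vol hy0
    intro t ht
    obtain ⟨t1, t2, t3⟩ := ht
    rw [hB, Finset.mem_filter, Finset.mem_Icc]
    refine ⟨⟨?_, ?_⟩, t, t1, t2, rfl, fun g => t3 ?_⟩
    · apply Int.floor_le_floor
      apply div_le_div_of_nonneg_right t1 hy0.le
    · apply Int.floor_le_floor
      apply div_le_div_of_nonneg_right t2 hy0.le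
    · obtain ⟨p1, p2⟩ := h.hP χ hχ t t1 t2
      exact gs_pos L.sy g hy0 (by norm_num) (by norm_num) hℓ0 hyℓ hn12 p1 p2 (diff_of_fc L.sy)
  refine (Finset.sum_le_sum hvol).trans ?_
  rw [← Finset.mul_sum]
  set BZ : X → Finset ℤ := fun χ => (B χ).filter fun q => ∃ t : ℝ, T ≤ t ∧ t ≤ 2 * T ∧ ⌊t / y⌋ = q ∧
    ¬ ((∀ u, fc (Ξ χ) t u = 0 → |u.re| ≤ y / 4 * (1 + Real.sqrt (|u.im| / y))) ∧
      (∀ u, fc (Ξ χ) t u = 0 → y < |u.re| → (Real.sqrt n + 2) * |u.re| < |u.im|)) with hBZ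
  set BS : X → Finset ℤ := fun χ => (B χ).filter fun q => ∃ t : ℝ, T ≤ t ∧ t ≤ 2 * T ∧ ⌊t / y⌋ = q ∧
    ¬ (∀ v : ℝ, ‖Sx (lam χ) (Real.exp (30 / y)) (1 / 2 + (t + v : ℝ) * I)‖ ≤
      dl * Pd (D χ) t * Real.exp (30 * Real.sqrt (|v| / y))) with hBS
  have h1 : ∀ χ ∈ S, ((B χ).card : ℝ) ≤ ((BZ χ).card : ℝ) + ((BS χ).card : ℝ) := by
    intro χ hχ
    have h2 : B χ ⊆ BZ χ ∪ BS χ := by
      intro q hq
      have hq' := hq
      rw [hB, Finset.mem_filter] at hq'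
      obtain ⟨-, t, t1, t2, t3, t4⟩ := hq'
      have h5 : ¬ Gp (Ξ χ) (D χ) (lam χ) n y t := fun g => t4 ((h.ld χ hχ).gs hy0 (by linarith)
        (hPt χ hχ t t1 t2) g)
      by_cases h6 : ((∀ u, fc (Ξ χ) t u = 0 → |u.re| ≤ y / 4 * (1 + Real.sqrt (|u.im| / y))) ∧
          (∀ u, fc (Ξ χ) t u = 0 → y < |u.re| → (Real.sqrt n + 2) * |u.re| < |u.im|))
      · exact Finset.mem_union_right _ (Finset.mem_filter.mpr
          ⟨hq, t, t1, t2, t3, fun h7 => h5 ⟨h6.1, h6.2, h7⟩⟩)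
      · exact Finset.mem_union_left _ (Finset.mem_filter.mpr ⟨hq, t, t1, t2, t3, h6⟩)
    have h3 := (Finset.card_le_card h2).trans (Finset.card_union_le _ _)
    exact_mod_cast h3
  have hn1' : 1 ≤ n := by
    have : (1 : ℝ) ≤ n := by linarith
    exact_mod_cast this
  have hz := h.zbad hc hn1' hnℓ hy0 (by linarith) (by linarith) BZ
    (fun χ _ q hq => (Finset.mem_filter.mp hq).2)
  have hs := h.sbad hA hy0 hy2 (by linarith) (by linarith) (by linarith) hA5 BS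
    (fun χ _ q hq => (Finset.mem_filter.mp hq).2)
  rw [hyx] at hz hs
  have h2 : ∑ χ ∈ S, ((B χ).card : ℝ) ≤ (Kz * Gc + K3 * Real.exp 1) * (𝒵 * ℓ) *
      Real.exp (-(κ * x)) := by
    have h3 := Finset.sum_le_sum h1
    rw [Finset.sum_add_distrib] at h3
    have h4 : Real.exp (-(c / 2 * (x / 4))) ≤ Real.exp (-(κ * x)) := by
      rw [Real.exp_le_exp]
      nlinarith
    have h5 : Real.exp (1 - x / 240) ≤ Real.exp 1 * Real.exp (-(κ * x)) := by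
      rw [← Real.exp_add, Real.exp_le_exp]
      nlinarith
    rw [← hKz, ← hGc] at hz
    have h6 : Kz * (𝒵 * ℓ * Gc * Real.exp (-(c / 2 * (x / 4)))) ≤
        Kz * (𝒵 * ℓ * Gc * Real.exp (-(κ * x))) := by gcongr
    have h7 : K3 * (ℓ * 𝒵) * Real.exp (1 - x / 240) ≤
        K3 * (ℓ * 𝒵) * (Real.exp 1 * Real.exp (-(κ * x))) := by gcongr
    calc _ ≤ _ := h3
      _ ≤ Kz * (𝒵 * ℓ * Gc * Real.exp (-(κ * x))) +
          K3 * (ℓ * 𝒵) * (Real.exp 1 * Real.exp (-(κ * x))) := by linarith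
      _ = _ := by ring
  have h3 : x ≤ 2 / κ * Real.exp (κ * x / 2) := by
    have h3 := Real.add_one_le_exp (κ * x / 2)
    rw [div_mul_eq_mul_div, le_div_iff₀ hκ0]
    linarith
  have e : κ / (8 * 10 ^ 36) * n = κ * x / 2 := by
    rw [hx]
    field_simp
    norm_num
  rw [e]
  calc y * ∑ χ ∈ S, ((B χ).card : ℝ) ≤ y * ((Kz * Gc + K3 * Real.exp 1) * (𝒵 * ℓ) *
        Real.exp (-(κ * x))) := by gcongr
    _ = (Kz * Gc + K3 * Real.exp 1) * 𝒵 * (y * ℓ * Real.exp (-(κ * x))) := by ring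
    _ ≤ (Kz * Gc + K3 * Real.exp 1) * 𝒵 * (2 / κ * Real.exp (κ * x / 2) * Real.exp (-(κ * x))) := by
        rw [hyx]
        gcongr
    _ = _ := by
        rw [mul_assoc (2 / κ), ← Real.exp_add]
        have : κ * x / 2 + -(κ * x) = -(κ * x / 2) := by ring
        rw [this]
        ring

/-- **all orders** -/
theorem fam_all (c A : ℝ) (hc : 0 < c) (hA : 1 ≤ A) : ∃ A' c' n₁ : ℝ, 0 < A' ∧ 0 < c' ∧
    ∀ {X : Type} {S : Finset X} {Ξ D : X → ℂ → ℂ} {lam : X → ℕ → ℂ} {Zr : X → Finset ℂ}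
    {g : X → ℝ → ℝ → ℂ} {C ℓ T 𝒵 : ℝ}, Fm S Ξ D lam Zr g c A C ℓ T 𝒵 →
    ∀ N : ℕ, n₁ ≤ N →
      ∑ χ ∈ S, volume.real {t : ℝ | T ≤ t ∧ t ≤ 2 * T ∧ ∃ n : ℕ, N ≤ n ∧ (n : ℝ) ≤ ℓ ∧
        ¬ 0 < lag (Ξ χ) (2 * n) t} ≤ A' * 𝒵 * Real.exp (-(c' * N)) := by
  obtain ⟨A', c', n₁, hA', hc', H⟩ := fam_one c A hc hA
  have hr : Real.exp (-c') < 1 := by rw [Real.exp_lt_one_iff]; linarith
  have hr0 : 0 < 1 - Real.exp (-c') := by linarith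
  refine ⟨A' * (1 / (1 - Real.exp (-c'))), c', n₁, by positivity, hc', ?_⟩
  intro X S Ξ D lam Zr g C ℓ T 𝒵 h N hN
  have hℓ := h.ℓpos
  have hℓ0 : 0 ≤ ℓ := by linarith
  have h𝒵 := h.h𝒵
  have h1 : ∀ χ ∈ S, volume.real {t : ℝ | T ≤ t ∧ t ≤ 2 * T ∧ ∃ n : ℕ, N ≤ n ∧ (n : ℝ) ≤ ℓ ∧
      ¬ 0 < lag (Ξ χ) (2 * n) t} ≤ ∑ n ∈ Finset.Ico N (⌊ℓ⌋₊ + 1), volume.real (bad1 (Ξ χ) n T) := by
    intro χ _
    have hsub : {t : ℝ | T ≤ t ∧ t ≤ 2 * T ∧ ∃ n : ℕ, N ≤ n ∧ (n : ℝ) ≤ ℓ ∧ ¬ 0 < lag (Ξ χ) (2 * n) t} ⊆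
        ⋃ n ∈ Finset.Ico N (⌊ℓ⌋₊ + 1), bad1 (Ξ χ) n T := by
      rintro t ⟨t1, t2, n, n1, n2, n3⟩
      simp only [mem_iUnion]
      refine ⟨n, ?_, t1, t2, n3⟩
      rw [Finset.mem_Ico]
      exact ⟨n1, Nat.lt_succ_of_le (Nat.le_floor n2)⟩
    have hfin : volume (⋃ n ∈ Finset.Ico N (⌊ℓ⌋₊ + 1), bad1 (Ξ χ) n T) ≠ ⊤ := by
      refine ne_of_lt (lt_of_le_of_lt (measure_mono (t := Icc T (2 * T)) ?_) ?_)
      · exact iUnion₂_subset fun n _ => bad1_sub _ _ _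
      · rw [Real.volume_Icc]
        exact ENNReal.ofReal_lt_top
    exact (measureReal_mono hsub hfin).trans (measureReal_biUnion_finset_le _ _)
  refine (Finset.sum_le_sum h1).trans ?_
  rw [Finset.sum_comm]
  have h2 : ∀ n ∈ Finset.Ico N (⌊ℓ⌋₊ + 1), ∑ χ ∈ S, volume.real (bad1 (Ξ χ) n T) ≤
      A' * 𝒵 * Real.exp (-c') ^ n := by
    intro n hn
    rw [Finset.mem_Ico] at hn
    have h3 : (N : ℝ) ≤ n := by exact_mod_cast hn.1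
    have h4 : (n : ℝ) ≤ ℓ := (Nat.le_floor_iff hℓ0).mp (Nat.lt_succ_iff.mp hn.2)
    have h5 := H h n (hN.trans h3) h4
    rw [← Real.exp_nat_mul]
    have e : (n : ℝ) * -c' = -(c' * n) := by ring
    rw [e]
    exact h5
  refine (Finset.sum_le_sum h2).trans ?_
  rw [← Finset.mul_sum]
  have h3 := geom_tail (Real.exp_pos (-c')).le hr N (⌊ℓ⌋₊ + 1)
  have e : Real.exp (-(c' * N)) = Real.exp (-c') ^ N := by
    rw [← Real.exp_nat_mul]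
    congr 1
    ring
  rw [e]
  calc A' * 𝒵 * ∑ i ∈ Finset.Ico N (⌊ℓ⌋₊ + 1), Real.exp (-c') ^ i ≤
        A' * 𝒵 * (Real.exp (-c') ^ N / (1 - Real.exp (-c'))) := by gcongr
    _ = _ := by ring

end Pool.Agent.J4H4.LG
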