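import Pool.Agent.J4H4.LG.Core
import Pool.Agent.J4H34.CD.Z14
import Mathlib.Analysis.ODE.Gronwall

set_option autoImplicit false

/-!
# Large orders for L-functions with an Euler product
-/

namespace Pool.Agent.J4H4.LG

open Complex Set Filter Topology
open scoped ComplexConjugate
open H353.E H353.F
open Pool.Agent.J4H34.CD (HDat Pd)

/-- Gronwall in both directions -/
lemma gron {f f' : ℝ → ℂ} {C a b : ℝ} (hab : a ≤ b) (hd : ∀ x ∈ Icc a b, HasDerivAt f (f' x) x)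
    (hb : ∀ x ∈ Icc a b, ‖f' x‖ ≤ C * ‖f x‖) :
    ‖f b‖ ≤ ‖f a‖ * Real.exp (C * (b - a)) ∧ ‖f a‖ ≤ ‖f b‖ * Real.exp (C * (b - a)) := by
  have key : ∀ g g' : ℝ → ℂ, (∀ x ∈ Icc a b, HasDerivAt g (g' x) x) → (∀ x ∈ Icc a b, ‖g' x‖ ≤ C * ‖g x‖) →
      ‖g b‖ ≤ ‖g a‖ * Real.exp (C * (b - a)) := by
    intro g g' h1 h2
    have h3 := norm_le_gronwallBound_of_norm_deriv_right_le (f := g) (f' := g') (δ := ‖g a‖) (K := C) (ε := 0)
      (a := a) (b := b) (fun x hx => (h1 x hx).continuousAt.continuousWithinAt)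
      (fun x hx => (h1 x (Ico_subset_Icc_self hx)).hasDerivWithinAt) le_rfl
      (fun x hx => by rw [add_zero]; exact h2 x (Ico_subset_Icc_self hx)) b ⟨hab, le_rfl⟩
    rwa [gronwallBound_ε0] at h3
  refine ⟨key f f' hd hb, ?_⟩
  have hmem : ∀ x ∈ Icc a b, a + b - x ∈ Icc a b := fun x hx => ⟨by linarith [hx.2], by linarith [hx.1]⟩
  have h1 := key (fun x => f (a + b - x)) (fun x => -f' (a + b - x)) (fun x hx => by
    have h2 := hd _ (hmem x hx)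
    have h3 : HasDerivAt (fun x : ℝ => a + b - x) (-1) x := by
      simpa using (hasDerivAt_id x).const_sub (a + b)
    have h4 := h2.scomp x h3
    rw [neg_one_smul] at h4
    exact h4) (fun x hx => by
    rw [norm_neg]
    exact hb _ (hmem x hx))
  simpa using h1

variable {m : ℕ} {N : ℝ} {μ : Fin m → ℂ} {Ξ E : ℂ → ℂ} {lam : ℕ → ℂ} {B C : ℝ}

lemma sum_bd (h : HDat N μ Ξ E lam B C) {s : ℂ} (hs : 3 / 2 ≤ s.re) :
    ‖∑' n : ℕ, lam n * (n : ℂ) ^ (-s)‖ ≤ C := by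
  have h1 : ∀ n : ℕ, ‖lam n * (n : ℂ) ^ (-s)‖ ≤ ‖lam n‖ * (n : ℝ) ^ (-(3 / 2) : ℝ) := by
    intro n
    rcases Nat.eq_zero_or_pos n with rfl | hn
    · rw [h.l0, zero_mul, norm_zero, zero_mul]
    · rw [norm_mul, Complex.norm_natCast_cpow_of_pos hn, neg_re]
      have : (1 : ℝ) ≤ n := by exact_mod_cast hn
      gcongr
  have h2 : Summable fun n : ℕ => ‖lam n * (n : ℂ) ^ (-s)‖ :=
    Summable.of_nonneg_of_le (fun _ => norm_nonneg _) h1 h.sm
  exact (norm_tsum_le_tsum_norm h2).trans ((h2.tsum_le_tsum h1 h.sm).trans h.ts)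

lemma E_bd (B C : ℝ) : ∃ Q : ℝ, 0 ≤ Q ∧ ∀ {m : ℕ} {N : ℝ} {μ : Fin m → ℂ} {Ξ E : ℂ → ℂ} {lam : ℕ → ℂ},
    HDat N μ Ξ E lam B C → ∀ s : ℂ, 3 / 2 ≤ s.re → ‖E s‖ ≤ Real.exp Q ∧ 1 ≤ Real.exp Q * ‖E s‖ := by
  obtain ⟨k, hk⟩ := pow_unbounded_of_one_lt (2 * B) (by norm_num : (1 : ℝ) < 2)
  obtain ⟨σ, hσ⟩ : ∃ σ : ℝ, σ = max 4 (k : ℝ) := ⟨_, rfl⟩
  have hσ4 : 4 ≤ σ := by rw [hσ]; exact le_max_left _ _
  have hσk : (k : ℝ) ≤ σ := by rw [hσ]; exact le_max_right _ _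
  refine ⟨1 + |C| * σ, by positivity, ?_⟩
  intro m N μ Ξ E lam h s hs
  have hB := h.hB
  have hfar : ∀ z : ℂ, σ ≤ z.re → 1 / 2 ≤ ‖E z‖ ∧ ‖E z‖ ≤ 3 / 2 := by
    intro z hz
    have h1 := h.cl z (by linarith)
    have h2 : B * (1 / 2 : ℝ) ^ z.re ≤ 1 / 2 := by
      have h3 : (1 / 2 : ℝ) ^ z.re ≤ (1 / 2 : ℝ) ^ (k : ℝ) :=
        Real.rpow_le_rpow_of_exponent_ge (by norm_num) (by norm_num) (by linarith)
      rw [Real.rpow_natCast] at h3
      have h4 : (1 / 2 : ℝ) ^ k * 2 ^ k = 1 := by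
        rw [← mul_pow]
        norm_num
      have h5 : 0 < (1 / 2 : ℝ) ^ k := by positivity
      nlinarith
    have h3 := norm_sub_norm_le (E z) 1
    have h4 := norm_sub_norm_le 1 (E z)
    rw [norm_sub_rev] at h4
    rw [norm_one] at h3 h4
    constructor <;> linarith
  have hld : ∀ z : ℂ, 3 / 2 ≤ z.re → ‖deriv E z‖ ≤ |C| * ‖E z‖ := by
    intro z hz
    have h1 := h.El z (by linarith)
    have h2 := h.Ene z (by linarith)
    have h3 := sum_bd h hz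
    rw [← norm_neg, ← h1, norm_div, div_le_iff₀ (norm_pos_iff.mpr h2)] at h3
    refine h3.trans ?_
    have := le_abs_self C
    gcongr
  have hmain : Real.exp (-(1 + |C| * σ)) ≤ ‖E s‖ ∧ ‖E s‖ ≤ Real.exp (1 + |C| * σ) := by
    have hC0 := abs_nonneg C
    rcases le_total σ s.re with h1 | h1
    · obtain ⟨h2, h3⟩ := hfar s h1
      constructor
      · refine le_trans ?_ h2
        have h4 : Real.exp (-(1 + |C| * σ)) ≤ Real.exp (-1) := by
          rw [Real.exp_le_exp]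
          nlinarith
        refine h4.trans ?_
        rw [Real.exp_neg, ← one_div]
        exact one_div_le_one_div_of_le (by norm_num) (by linarith [Real.add_one_le_exp (1 : ℝ)])
      · refine h3.trans ?_
        have h4 : Real.exp 1 ≤ Real.exp (1 + |C| * σ) := by
          rw [Real.exp_le_exp]
          nlinarith
        linarith [Real.add_one_le_exp (1 : ℝ)]
    · have hz : ∀ x : ℝ, ((x : ℂ) + s.im * I).re = x := fun x => by simp
      obtain ⟨g1, g2⟩ := gron (f := fun x : ℝ => E ((x : ℂ) + s.im * I))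
        (f' := fun x : ℝ => deriv E ((x : ℂ) + s.im * I)) (C := |C|) (a := s.re) (b := σ) h1
        (fun x hx => by
          have h2 : HasDerivAt E (deriv E ((x : ℂ) + s.im * I)) ((x : ℂ) + s.im * I) :=
            (h.Ed _ (by rw [hz]; linarith [hx.1])).hasDerivAt
          have h3 : HasDerivAt (fun z : ℂ => E (z + s.im * I)) (deriv E ((x : ℂ) + s.im * I)) (x : ℂ) :=
            h2.comp_add_const _ _
          exact h3.comp_ofReal)
        (fun x hx => hld _ (by rw [hz]; linarith [hx.1]))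
      have e : ((s.re : ℝ) : ℂ) + s.im * I = s := Complex.re_add_im s
      rw [e] at g1 g2
      obtain ⟨h2, h3⟩ := hfar ((σ : ℂ) + s.im * I) (by rw [hz])
      have h4 : |C| * (σ - s.re) ≤ |C| * σ := by gcongr; linarith
      have h5 : Real.exp (|C| * (σ - s.re)) ≤ Real.exp (|C| * σ) := Real.exp_le_exp.mpr h4
      have h7 := Real.exp_pos (|C| * σ)
      have h8 := Real.add_one_le_exp (1 : ℝ)
      constructor
      · rw [Real.exp_neg, inv_le_comm₀ (Real.exp_pos _) (by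
          have := norm_pos_iff.mpr (h.Ene s (by linarith))
          exact this), inv_le_iff_one_le_mul₀' (norm_pos_iff.mpr (h.Ene s (by linarith))), Real.exp_add]
        have h9 : 1 / 2 ≤ ‖E s‖ * Real.exp (|C| * σ) := h2.trans (g1.trans (by gcongr))
        nlinarith
      · rw [Real.exp_add]
        have h9 : ‖E s‖ ≤ 3 / 2 * Real.exp (|C| * σ) := g2.trans (by gcongr)
        nlinarith
  refine ⟨hmain.2, ?_⟩
  have h2 := Real.exp_pos (1 + |C| * σ)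
  have h1 := mul_le_mul_of_nonneg_left hmain.1 h2.le
  rw [← Real.exp_add, add_neg_cancel, Real.exp_zero] at h1
  exact h1

theorem hdat_core (B C : ℝ) (m : ℕ) : ∃ Q : ℝ, ∀ {N : ℝ} {μ : Fin m → ℂ} {Ξ E : ℂ → ℂ} {lam : ℕ → ℂ},
    HDat N μ Ξ E lam B C →
    Core (6 * m) (fun K => 4 * Real.exp (2 * |K| + 10)) Ξ (gaf N μ) (gaD N μ) (3 / 2) (3 / 2) Q C := by
  obtain ⟨Q₁, hQ₁, H⟩ := E_bd B C
  refine ⟨Q₁ + ((6 * m : ℝ) ^ 2 / 4 + 64), ?_⟩
  intro N μ Ξ E lam h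
  have hm' : (1 : ℝ) ≤ m := by exact_mod_cast h.hm
  have gp := gaf_GP h.hm h.hN (fun j => (h.hμ j).trans (by norm_num : (0 : ℝ) ≤ 1 / 2))
  have hle : Real.exp Q₁ ≤ Real.exp (Q₁ + ((6 * m : ℝ) ^ 2 / 4 + 64)) :=
    Real.exp_le_exp.mpr (by linarith [(by positivity : (0 : ℝ) ≤ (6 * m : ℝ) ^ 2 / 4 + 64)])
  have hC0 : 0 ≤ C := le_trans (by positivity) h.hC
  have hhi : ∀ z : ℂ, 3 / 2 ≤ z.re → ‖Ξ z‖ ≤ Real.exp Q₁ * ‖gaf N μ z‖ := fun z hz => by
    rw [h.eq z (by linarith), norm_mul, mul_comm]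
    exact mul_le_mul_of_nonneg_right (H h z hz).1 (norm_nonneg _)
  refine
    { gp := gp, diff := h.diff, fe := h.fe, hσ := by norm_num, hσ₁ := le_rfl, hQ' := hC0,
      ld := fun z hz => ⟨?_, ?_⟩, hi := fun z hz => ?_, lo := fun z hz => ?_, strip := fun z h1 h2 => ?_ }
  · rw [h.eq z (by linarith)]
    exact mul_ne_zero (gp.ne z (by linarith)) (h.Ene z (by linarith))
  · rw [h.ldat.ser z (by linarith), sub_sub_cancel_left, norm_neg]
    exact sum_bd h hz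
  · exact (hhi z hz).trans (mul_le_mul_of_nonneg_right hle (norm_nonneg _))
  · rw [h.eq z (by linarith), norm_mul]
    have h3 := (H h z hz).2
    have h5 : 1 ≤ Real.exp (Q₁ + ((6 * m : ℝ) ^ 2 / 4 + 64)) * ‖E z‖ :=
      h3.trans (mul_le_mul_of_nonneg_right hle (norm_nonneg _))
    calc ‖gaf N μ z‖ = ‖gaf N μ z‖ * 1 := by ring
      _ ≤ ‖gaf N μ z‖ * (Real.exp (Q₁ + ((6 * m : ℝ) ^ 2 / 4 + 64)) * ‖E z‖) := by gcongr
      _ = _ := by ring
  · have h3 := strip_sharp gp (by linarith) (Real.one_le_exp hQ₁) (by norm_num) (by norm_num) h.diff hhi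
      h.fe h.bdd h1 h2
    rw [← Real.exp_add] at h3
    exact h3

/-- positivity for all large orders -/
theorem hdat_top (B C : ℝ) (m : ℕ) : ∃ ℓ₁ : ℝ, ∀ {N : ℝ} {μ : Fin m → ℂ} {Ξ E : ℂ → ℂ} {lam : ℕ → ℂ},
    HDat N μ Ξ E lam B C → ∀ t ℓ : ℝ, ℓ₁ ≤ ℓ → Pd (gaD N μ) t ≤ 3 / 5 * ℓ →
    ∀ n : ℕ, ℓ < n → 0 < lag Ξ (2 * n) t := by
  obtain ⟨Q, H⟩ := hdat_core B C m
  obtain ⟨δ, hδd⟩ : ∃ δ : ℝ, δ = 1 / 16 := ⟨_, rfl⟩
  have hδ : 0 < δ := by rw [hδd]; norm_num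
  obtain ⟨κ, hκd⟩ : ∃ κ : ℝ, κ = kap δ := ⟨_, rfl⟩
  have hκ : 0 < κ := by rw [hκd]; unfold kap; positivity
  obtain ⟨P₀, hP₀⟩ : ∃ P₀ : ℝ, P₀ = (11 * (6 * m) + |C| + 8 * |Q|) / κ + 1 := ⟨_, rfl⟩
  have hP₀0 : 0 < P₀ := by rw [hP₀]; positivity
  obtain ⟨G, hG⟩ : ∃ G : ℝ, G = 2 * P₀ * (1 + |4 * Real.exp (2 * |P₀| + 10)|) := ⟨_, rfl⟩
  have hG0 : 0 ≤ G := by rw [hG]; positivity
  refine ⟨G + 1000000000000 + 12 * |C|, ?_⟩
  intro N μ Ξ E lam h t ℓ hℓ hP n hn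
  have c := H h
  have L := h.ldat
  have hC := abs_nonneg C
  have hC1 := le_abs_self C
  have hCC := L.hC
  have gp := c.gp
  have hm2 : ((2 * n : ℕ) : ℝ) = 2 * n := by push_cast; ring
  have hr0 : (gaD N μ (1 / 2 + t * I + (8 / 7 : ℝ))).re ≤ 3 / 5 * ℓ + C * (22 / 7) := by
    have h1 := L.near t (w := ((8 / 7 : ℝ) : ℂ)) (by rw [ofReal_re]; norm_num)
    have h2 := (Complex.abs_re_le_norm _).trans h1
    rw [sub_re, ofReal_re, Complex.norm_real, Real.norm_eq_abs, abs_of_pos (by norm_num : (0 : ℝ) < 8 / 7)] at h2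
    have h3 := (abs_le.mp h2).2
    linarith
  obtain ⟨r, hr1, hr2⟩ := exists_rad2 gp (t := t) (r₀ := 8 / 7) (m := ((2 * n : ℕ) : ℝ)) (by norm_num)
    (by rw [hm2]; linarith) (by rw [hm2]; linarith)
  obtain ⟨P, hPd⟩ : ∃ P : ℝ, P = (gaD N μ (1 / 2 + t * I + r)).re := ⟨_, rfl⟩
  rw [← hPd] at hr2
  have hPP := large_P gp (t := t) (P₀ := P₀) (by linarith) hPd hr2 hP₀0 (by
    rw [← hG, hm2]
    linarith)
  have hbig : 11 * (6 * m) + |C| + 8 * |Q| ≤ κ * P := by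
    have h1 : (11 * (6 * m) + |C| + 8 * |Q|) / κ ≤ P := by linarith
    rw [div_le_iff₀ hκ] at h1
    linarith
  have hm0 : (0 : ℝ) ≤ 11 * (6 * m) := by positivity
  have hQ := abs_nonneg Q
  have hQ1 := le_abs_self Q
  have hp := c.hp (t := t) (r := r) (δ := δ) (κ := κ) (P := P) (m := 2 * n) hκ.le hδ (by rw [hδd]; norm_num)
    (by linarith) (by rw [hδd]; linarith) hPd hr2 (by linarith) (by linarith)
  rw [hκd] at hp
  rw [lag_eq h.diff]
  exact hp.pos hδ (by rw [hδd]; norm_num) (by linarith) hr2 (by rw [hm2]; linarith)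
    (by rw [hδd, hm2]; linarith) (even_two_mul n)

end Pool.Agent.J4H4.LG
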