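import Pool.Agent.J4H4.LG.Fam
import Pool.Agent.J4H4.LG.Top
import Pool.Agent.J4H34.CD.Z22
import Pool.Agent.J4H7.LG.Crit

/-!
# Laguerre inequalities for completed Hecke L-functions: the family theorem
-/

set_option autoImplicit false
set_option linter.unusedSectionVars false

open NumberField Complex Set Filter Topology MeasureTheory
open scoped ComplexConjugate Nat

namespace Pool.Agent.J4H4.LG

open Pool.Agent.J4H34.CD
open Pool.Agent.Y773 (LI VM cc)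
open Pool.Agent.Y767 (GGn IsHM IsHecke HFam nonvanish eq_of_LI)
open Pool.Agent.N786.D (IsLf fam_size)
open H353.E
open Pool.Agent

/-- the heights where the inequality of some even order `≥ M` fails -/
def badm (Ξ : ℂ → ℂ) (M : ℕ) (T : ℝ) : Set ℝ :=
  {t : ℝ | T ≤ t ∧ t ≤ 2 * T ∧ ∃ n : ℕ, M ≤ 2 * n ∧ ¬ 0 < lag Ξ (2 * n) t}

/-- the criterion -/
theorem hecke_crit {K : Type} [Field K] [NumberField K] [IsTotallyReal K] {𝔪 : Ideal (𝓞 K)}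
    {ν : InfinitePlace K → ℝ} {e : InfinitePlace K → ℕ} {ψ : Ideal (𝓞 K) →*₀ ℂ} {F Ξ : ℂ → ℂ}
    (h : IsLf K 𝔪 ν ψ F) (hX : IsXiH 𝔪 ν e ψ Ξ) :
    ((∀ s, Ξ s = 0 → s.re = 1 / 2) ↔ ∀ (t : ℝ) (j : ℕ), 0 ≤ lag Ξ j t) := by
  obtain ⟨B₀, C₀, hC₀, Hdat⟩ := hecke_dat K
  have d := Hdat _ _ _ _ _ _ h hX
  obtain ⟨ε, hε, hfe⟩ := d.fe
  obtain ⟨z, hz⟩ := d.hnp 0
  rw [iteratedDeriv_zero] at hz
  exact (Pool.Agent.J4H7.LG.t_crit Ξ ε d.diff hε hfe d.grc ⟨z, hz⟩).1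

open Classical in
/-- **Laguerre inequalities for completed Hecke L-functions** -/
theorem main_meas (K : Type) [Field K] [NumberField K] [IsTotallyReal K] (h : ℝ) (hh : 1 / 2 < h)
    (hh1 : h ≤ 1) : ∃ A c V₀ δ₀ : ℝ, 0 < A ∧ 0 < c ∧ 1 ≤ V₀ ∧ 0 < δ₀ ∧
    ∀ (𝔣 𝔮 : Ideal (𝓞 K)) (ν₀ : InfinitePlace K → ℝ) (ψ₀ : Ideal (𝓞 K) →*₀ ℂ) (V T : ℝ),
    IsHecke K 𝔣 ν₀ ψ₀ → ∑ w, ν₀ w = 0 → IsCoprime 𝔣 𝔮 → 𝔮 ≠ ⊥ → 𝔣 * 𝔮 ≠ ⊤ →
    ∑ᶠ 𝔭 ∈ N786.PD 𝔮, (1 / (Ideal.absNorm 𝔭 : ℝ)) ≤ δ₀ → V₀ ≤ V → (∀ w, 4 * (|ν₀ w| + V) ≤ T) →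
    4 * Real.log ((Ideal.absNorm (𝔣 * 𝔮) : ℝ) * T ^ Module.finrank ℚ K) ≤ T →
    ((Ideal.absNorm (𝔣 * 𝔮) : ℝ) * T ^ Module.finrank ℚ K) ^ h ≤
      (Ideal.absNorm 𝔮 : ℝ) * V ^ Module.finrank ℚ K →
    ∀ (Ξ : (Ideal (𝓞 K) →*₀ ℂ) → ℂ → ℂ),
      (∀ χ ∈ HFam K 𝔮 V, ∃ (ν : InfinitePlace K → ℝ) (e : InfinitePlace K → ℕ), (∀ w, |ν w| ≤ V) ∧
        ∑ w, ν w = 0 ∧ IsHecke K 𝔮 ν χ ∧ IsXiH (𝔣 * 𝔮) (ν₀ + ν) e (N786.pr ψ₀ χ) (Ξ χ)) →
      ∃ hfin : (HFam K 𝔮 V).Finite, ∀ M : ℕ,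
        ∑ χ ∈ hfin.toFinset, volume.real (badm (Ξ χ) M T) ≤
          A * Real.exp (-(c * M)) * (T * ((HFam K 𝔮 V).ncard : ℝ)) := by
  obtain ⟨B₀, C₀, hC₀, Hdat⟩ := hecke_dat K
  obtain ⟨Ad, Vd, cd, hAd, hVd, hcd, Hden⟩ := den_fam K h hh hh1
  obtain ⟨Am, Vm, ℓm, hAm, hVm, hℓm, Hmom⟩ := mom_fam K
  obtain ⟨cs, Vs, hcs, hVs, Hsz⟩ := fam_size K
  have hdeg : 1 ≤ Module.finrank ℚ K := Module.finrank_pos
  obtain ⟨Ag, hAg⟩ : ∃ Ag : ℝ, Ag = 14 * Module.finrank ℚ K := ⟨_, rfl⟩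
  have hdeg' : (1 : ℝ) ≤ Module.finrank ℚ K := by exact_mod_cast hdeg
  have hAg1 : 1 ≤ Ag := by rw [hAg]; linarith
  obtain ⟨A', c', n₁, hA', hc', Hbad⟩ := fam_all cd Ag hcd hAg1
  obtain ⟨ℓt, Htop⟩ := hdat_top B₀ C₀ (Fintype.card (InfinitePlace K))
  set d : ℝ := (Ideal.absNorm (differentIdeal ℤ (𝓞 K)) : ℝ) with hd
  have hd1 : 1 ≤ d := N786.one_le_norm differentIdeal_ne_bot
  set m := Fintype.card (InfinitePlace K) with hm
  have hmn : m = Module.finrank ℚ K := Pool.Agent.Y767.card_places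
  obtain ⟨ℓ₀, hℓ₀⟩ : ∃ ℓ₀ : ℝ, ℓ₀ = 10 ^ 56 * C₀ + 10 * (Real.log d + 6 * m) + ℓm + |ℓt| := ⟨_, rfl⟩
  have hℓt := abs_nonneg ℓt
  have hlogd : 0 ≤ Real.log d := Real.log_nonneg hd1
  have hm0 : (0 : ℝ) ≤ m := Nat.cast_nonneg m
  obtain ⟨A₂, hA₂⟩ : ∃ A₂ : ℝ, A₂ = max Am Ad := ⟨_, rfl⟩
  have hA₂1 : 1 ≤ A₂ := by rw [hA₂]; exact le_max_of_le_left hAm
  obtain ⟨A₃, hA₃⟩ : ∃ A₃ : ℝ, A₃ = max (A' * A₂ / cs) (Real.exp (c' * (n₁ + 1))) := ⟨_, rfl⟩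
  have hA₃0 : 0 < A₃ := by rw [hA₃]; exact lt_max_of_lt_right (Real.exp_pos _)
  refine ⟨A₃, c' / 2, max (max Vd Vm) (max Vs (max (Real.exp ℓ₀) 4)), 1 / 4, hA₃0, by positivity,
    le_max_of_le_left (le_max_of_le_left hVd), by norm_num, ?_⟩
  intro 𝔣 𝔮 ν₀ ψ₀ V T hψ hs₀ hcop h𝔮 htop hδ hV hνT hℓT hsz Ξ hΞ
  have hV1 : Vd ≤ V := ((le_max_left _ _).trans (le_max_left _ _)).trans hV
  have hV2 : Vm ≤ V := ((le_max_right _ _).trans (le_max_left _ _)).trans hV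
  have hV3 : Vs ≤ V := ((le_max_left _ _).trans (le_max_right _ _)).trans hV
  have hV4 : Real.exp ℓ₀ ≤ V :=
    ((le_max_left _ _).trans ((le_max_right _ _).trans (le_max_right _ _))).trans hV
  have hV5 : 4 ≤ V := ((le_max_right _ _).trans ((le_max_right _ _).trans (le_max_right _ _))).trans hV
  have hV0 : 0 < V := by linarith
  obtain ⟨w₀⟩ : Nonempty (InfinitePlace K) := inferInstance
  have hTV : 4 * V ≤ T := by
    have h1 := hνT w₀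
    have h2 := abs_nonneg (ν₀ w₀)
    linarith
  have hT0 : 0 < T := by linarith
  have hT1 : 1 ≤ T := by linarith
  have hbot : 𝔣 * 𝔮 ≠ ⊥ := mul_ne_zero hψ.ne_bot h𝔮
  set N₀ : ℝ := (Ideal.absNorm (𝔣 * 𝔮) : ℝ) with hN₀
  have hN1 : 1 ≤ N₀ := N786.one_le_norm hbot
  set C := N₀ * T ^ Module.finrank ℚ K with hC
  have hC0 : 0 < C := by positivity
  have hTC : T ≤ C := by
    rw [hC]
    calc T = 1 * T ^ 1 := by ring
      _ ≤ N₀ * T ^ Module.finrank ℚ K := by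
          have := pow_le_pow_right₀ hT1 hdeg
          gcongr
  set ℓ := Real.log C with hℓ
  have hℓℓ₀ : ℓ₀ ≤ ℓ := by
    rw [hℓ, Real.le_log_iff_exp_le hC0]
    linarith
  have hCℓ : 10 ^ 56 * C₀ ≤ ℓ := by
    rw [hℓ₀] at hℓℓ₀
    linarith
  have hℓ1 : 1 ≤ ℓ := by
    have : (1 : ℝ) ≤ 10 ^ 56 * C₀ := by nlinarith
    linarith
  have hℓd : 10 * (Real.log d + 6 * m) ≤ ℓ := by
    rw [hℓ₀] at hℓℓ₀
    have : 0 ≤ 10 ^ 56 * C₀ := by positivity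
    linarith
  have hℓℓm : ℓm ≤ ℓ := by
    rw [hℓ₀] at hℓℓ₀
    have : 0 ≤ 10 ^ 56 * C₀ := by positivity
    have : 0 ≤ 10 * (Real.log d + 6 * m) := by positivity
    linarith
  set NV := (Ideal.absNorm 𝔮 : ℝ) * V ^ Module.finrank ℚ K with hNV
  have hNV0 : 0 ≤ NV := by positivity
  have hszl : Real.exp (ℓ / 2) ≤ NV := by
    refine le_trans ?_ hsz
    have e : C ^ h = Real.exp (ℓ * h) := by rw [Real.rpow_def_of_pos hC0]
    rw [e, Real.exp_le_exp]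
    nlinarith
  obtain ⟨hfin, Hd2⟩ := Hden 𝔣 𝔮 ν₀ ψ₀ V T hψ hs₀ hcop h𝔮 htop hV1 hTV
    (fun w => by
      have h1 := hνT w
      have h2 := abs_nonneg (ν₀ w)
      linarith) hsz
  refine ⟨hfin, fun M => ?_⟩
  set S := hfin.toFinset with hS
  have hSmem : ∀ {χ}, χ ∈ S ↔ χ ∈ HFam K 𝔮 V := fun {χ} => Set.Finite.mem_toFinset _
  -- the data of the members of the family
  choose! ν e hν1 hν2 hν3 hν4 using hΞ
  have hLf : ∀ χ ∈ HFam K 𝔮 V, ∃ F, IsLf K (𝔣 * 𝔮) (ν₀ + ν χ) (N786.pr ψ₀ χ) F := by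
    intro χ hχ
    have h1 := N786.pr_isHecke hcop hψ (hν3 χ hχ)
    have hs : ∑ w, (ν₀ + ν χ) w = 0 := by
      simp only [Pi.add_apply]
      rw [Finset.sum_add_distrib, hs₀, hν2 χ hχ, add_zero]
    obtain ⟨e', F, hF, hFL⟩ := h1.fe hs htop
    exact ⟨F, htop, hs, h1, hF.diff, hFL⟩
  choose! F hF using hLf
  set D : (Ideal (𝓞 K) →*₀ ℂ) → ℂ → ℂ := fun χ =>
    gaD (((Ideal.absNorm (𝔣 * 𝔮) * Ideal.absNorm (differentIdeal ℤ (𝓞 K)) : ℕ) : ℝ))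
      (muH (e χ) (ν₀ + ν χ)) with hD
  have hdat : ∀ χ ∈ HFam K 𝔮 V, HDat
      (((Ideal.absNorm (𝔣 * 𝔮) * Ideal.absNorm (differentIdeal ℤ (𝓞 K)) : ℕ) : ℝ))
      (muH (e χ) (ν₀ + ν χ)) (Ξ χ) (LI (N786.pr ψ₀ χ)) (lamH (N786.pr ψ₀ χ)) B₀ C₀ := fun χ hχ =>
    Hdat _ _ _ _ _ _ (hF χ hχ) (hν4 χ hχ)
  have hP : ∀ χ ∈ HFam K 𝔮 V, ∀ t, T ≤ t → t ≤ 2 * T →
      2 / 5 * ℓ ≤ Pd (D χ) t ∧ Pd (D χ) t ≤ 3 / 5 * ℓ := by
    intro χ hχ t h1 h2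
    have hR : (((Ideal.absNorm (𝔣 * 𝔮) * Ideal.absNorm (differentIdeal ℤ (𝓞 K)) : ℕ) : ℝ)) = d * N₀ := by
      push_cast
      rw [hd, hN₀]
      ring
    simp only [hD]
    rw [hR]
    apply Pd_bounds hd1 hN1 (by linarith) _ _ _ (by rw [hℓ, hC, ← hmn]) hℓd h1 h2
    · intro j
      unfold muH
      simp
    · intro j
      unfold muH
      simp
      exact (hν4 χ hχ).he _
    · intro j
      unfold muH
      have e1 : (-((e χ ((Fintype.equivFin (InfinitePlace K)).symm j) : ℕ) : ℂ) +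
          I * (((ν₀ + ν χ) ((Fintype.equivFin (InfinitePlace K)).symm j) : ℝ) : ℂ)).im =
          (ν₀ + ν χ) ((Fintype.equivFin (InfinitePlace K)).symm j) := by simp
      rw [e1, Pi.add_apply]
      have h3 := hνT ((Fintype.equivFin (InfinitePlace K)).symm j)
      have h4 := hν1 χ hχ ((Fintype.equivFin (InfinitePlace K)).symm j)
      have h5 := abs_add_le (ν₀ ((Fintype.equivFin (InfinitePlace K)).symm j))
        (ν χ ((Fintype.equivFin (InfinitePlace K)).symm j))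
      linarith
  have hTop : ∀ χ ∈ HFam K 𝔮 V, ∀ t, T ≤ t → t ≤ 2 * T → ∀ n : ℕ, ℓ < n → 0 < lag (Ξ χ) (2 * n) t := by
    intro χ hχ t h1 h2 n hn
    refine Htop (hdat χ hχ) t ℓ ?_ (hP χ hχ t h1 h2).2 n hn
    rw [hℓ₀] at hℓℓ₀
    have : 0 ≤ 10 ^ 56 * C₀ := by positivity
    have := le_abs_self ℓt
    linarith
  have hcard : (HFam K 𝔮 V).ncard = S.card := Set.ncard_eq_toFinset_card _ hfin
  rw [hcard]
  obtain ⟨N, hN⟩ : ∃ N : ℕ, N = (M + 1) / 2 := ⟨_, rfl⟩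
  have hNM : (M : ℝ) ≤ 2 * N := by
    have : M ≤ 2 * N := by omega
    exact_mod_cast this
  have hNM2 : (2 : ℝ) * N ≤ M + 1 := by
    have : 2 * N ≤ M + 1 := by omega
    exact_mod_cast this
  rcases lt_or_ge (N : ℝ) n₁ with hn | hn
  · -- small M
    have h1 : 1 ≤ A₃ * Real.exp (-(c' / 2 * M)) := by
      have h2 : Real.exp (c' * (n₁ + 1)) ≤ A₃ := by rw [hA₃]; exact le_max_right _ _
      calc (1 : ℝ) ≤ Real.exp (c' * (n₁ + 1) + -(c' / 2 * M)) := by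
            rw [Real.one_le_exp_iff]
            nlinarith
        _ = Real.exp (c' * (n₁ + 1)) * Real.exp (-(c' / 2 * M)) := Real.exp_add _ _
        _ ≤ _ := by gcongr
    have h2 : ∀ χ ∈ S, volume.real (badm (Ξ χ) M T) ≤ T := by
      intro χ _
      have h3 : badm (Ξ χ) M T ⊆ Icc T (2 * T) := fun t ht => ⟨ht.1, ht.2.1⟩
      have h4 := measureReal_mono (μ := volume) h3 (by
        rw [Real.volume_Icc]
        exact ENNReal.ofReal_ne_top)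
      rw [Real.volume_real_Icc_of_le (by linarith)] at h4
      linarith
    have h3 := Finset.sum_le_sum h2
    rw [Finset.sum_const, nsmul_eq_mul] at h3
    have h4 : 0 ≤ T * (S.card : ℝ) := by positivity
    nlinarith
  · -- large M
    set 𝒵 : ℝ := A₂ * (NV * (T / V)) with h𝒵
    have h𝒵0 : 0 ≤ 𝒵 := by positivity
    have hzr : ∀ χ ∈ HFam K 𝔮 V, {s : ℂ | Ξ χ s = 0 ∧ T / 2 ≤ s.im ∧ s.im ≤ 5 / 2 * T}.Finite := by
      intro χ hχ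
      have L := (hdat χ hχ).ldat
      have h1 := L.sy.disc_finite (1 / 2 + 5 / 2 * T)
      refine (h1.image fun u => 1 / 2 + (0 : ℝ) * I + u).subset fun z hz => ?_
      obtain ⟨h2, h3, h4⟩ := hz
      refine ⟨z - (1 / 2 + (0 : ℝ) * I), ⟨?_, ?_⟩, by simp⟩
      · unfold fc
        simpa using h2
      · have h5 := L.zs _ h2
        refine (Complex.norm_le_abs_re_add_abs_im _).trans ?_
        have e1 : (z - (1 / 2 + (0 : ℝ) * I)).re = z.re - 1 / 2 := by simp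
        have e2 : (z - (1 / 2 + (0 : ℝ) * I)).im = z.im := by simp
        rw [e1, e2, abs_of_nonneg (by linarith : 0 ≤ z.im)]
        linarith
    set Zr : (Ideal (𝓞 K) →*₀ ℂ) → Finset ℂ := fun χ =>
      if hχ : χ ∈ HFam K 𝔮 V then (hzr χ hχ).toFinset else ∅ with hZr
    have hZrm : ∀ χ ∈ HFam K 𝔮 V, ∀ s, s ∈ Zr χ ↔ Ξ χ s = 0 ∧ T / 2 ≤ s.im ∧ s.im ≤ 5 / 2 * T := by
      intro χ hχ s
      simp only [hZr]
      rw [dif_pos hχ, Set.Finite.mem_toFinset]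
      rfl
    have hFm : Fm S Ξ D (fun χ => lamH (N786.pr ψ₀ χ)) Zr
        (fun χ U τ => gS (N786.pr ψ₀ χ) ⌊Real.exp U⌋₊ τ) cd Ag C₀ ℓ T 𝒵 := by
      have hψ1 : ∀ χ ∈ HFam K 𝔮 V, ∀ 𝔞, ‖N786.pr ψ₀ χ 𝔞‖ ≤ 1 := by
        intro χ hχ
        obtain ⟨e₀, he₀, hM⟩ := (hF χ hχ).hk.toIsHM.isModK (hF χ hχ).sum0 htop
        exact hM.norm_le_one
      refine
        { ld := fun χ hχ => (hdat χ (hSmem.mp hχ)).ldat
          hnp := fun χ hχ => (hdat χ (hSmem.mp hχ)).hnp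
          hT := hℓT
          hℓ := hCℓ
          hC := hC₀
          hP := fun χ hχ => hP χ (hSmem.mp hχ)
          hZ := fun χ hχ s h1 h2 h3 => (hZrm χ (hSmem.mp hχ) s).mpr ⟨h1, h2, h3⟩
          h𝒵 := h𝒵0
          den := fun δ hδ => ?_
          gs := fun χ hχ U hU τ => ?_
          gt := fun χ hχ U hU τ => ?_
          mom := fun U k hk hU hkU => ?_ }
      · have h1 := Hd2 F (fun χ hχ => ⟨(hF χ hχ).diff, ?_, (hF χ hχ).ser⟩) Zr (fun χ hχ s hs => ?_) δ hδ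
        · refine h1.trans ?_
          have h2 : Ad * (NV * (T / V)) ≤ 𝒵 := by
            rw [h𝒵]
            have : Ad ≤ A₂ := by rw [hA₂]; exact le_max_right _ _
            gcongr
          gcongr
        · refine ⟨2, ?_⟩
          rw [(hF χ hχ).ser 2 (by norm_num)]
          exact (hdat χ hχ).Ene 2 (by norm_num)
        · obtain ⟨h2, h3, h4⟩ := (hZrm χ hχ s).mp hs
          obtain ⟨h5, h6, h7⟩ := strip_open (hF χ hχ) (hν4 χ hχ) (fun s hs => (hdat χ hχ).zs hs) h2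
            (by linarith)
          exact ⟨h5, h6, h7, h3, h4⟩
      · rw [hAg]
        exact gs_bound (hψ1 χ (hSmem.mp hχ)) hU τ
      · rw [hAg]
        exact gt_bound (hψ1 χ (hSmem.mp hχ)) hU τ
      · obtain ⟨G, G', h1, h2, h3⟩ := Hmom 𝔣 𝔮 hcop htop hbot V T ℓ hV2 (by linarith) hℓℓm hszl ν₀ ψ₀ hs₀
          hψ.toIsHM S (fun χ hχ => hSmem.mp hχ) U k hk hU hkU
        have h4 : (k ! : ℝ) * (7 * Module.finrank ℚ K * U ^ 2) ^ k ≤ (k ! : ℝ) * (Ag * U ^ 2) ^ k := by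
          rw [hAg]
          gcongr
          linarith
        have h5 : Am * (NV * (T / V)) ≤ 𝒵 := by
          rw [h𝒵]
          have : Am ≤ A₂ := by rw [hA₂]; exact le_max_left _ _
          gcongr
        refine ⟨G, G', h1, h2.trans ?_, h3.trans ?_⟩
        · gcongr
        · gcongr
    have h1 := Hbad hFm N hn
    have h2 : ∀ χ ∈ S, volume.real (badm (Ξ χ) M T) ≤ volume.real {t : ℝ | T ≤ t ∧ t ≤ 2 * T ∧
        ∃ n : ℕ, N ≤ n ∧ (n : ℝ) ≤ ℓ ∧ ¬ 0 < lag (Ξ χ) (2 * n) t} := by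
      intro χ hχ
      apply measureReal_mono
      · rintro t ⟨t1, t2, n, n1, n2⟩
        refine ⟨t1, t2, n, by omega, ?_, n2⟩
        by_contra hcon
        push Not at hcon
        exact n2 (hTop χ (hSmem.mp hχ) t t1 t2 n hcon)
      · refine ne_of_lt (lt_of_le_of_lt (measure_mono (t := Icc T (2 * T)) fun t ht => ⟨ht.1, ht.2.1⟩) ?_)
        rw [Real.volume_Icc]
        exact ENNReal.ofReal_lt_top
    refine (Finset.sum_le_sum h2).trans (h1.trans ?_)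
    have h3 : cs * (NV * (T / V)) ≤ T * (S.card : ℝ) := by
      obtain ⟨-, h5⟩ := Hsz 𝔣 𝔮 hcop htop hbot V hV3 hδ
      rw [Set.ncard_eq_toFinset_card _ hfin] at h5
      have h6 : cs * NV / V ≤ (S.card : ℝ) := by
        rw [div_le_iff₀ hV0]
        exact h5
      calc cs * (NV * (T / V)) = T * (cs * NV / V) := by ring
        _ ≤ _ := by gcongr
    have h4 : A' * 𝒵 = (A' * A₂ / cs) * (cs * (NV * (T / V))) := by
      rw [h𝒵]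
      field_simp
    rw [h4]
    have h5 : A' * A₂ / cs ≤ A₃ := by rw [hA₃]; exact le_max_left _ _
    have h6 : Real.exp (-(c' * N)) ≤ Real.exp (-(c' / 2 * M)) := by
      rw [Real.exp_le_exp]
      nlinarith
    calc (A' * A₂ / cs) * (cs * (NV * (T / V))) * Real.exp (-(c' * N)) ≤
          A₃ * (T * (S.card : ℝ)) * Real.exp (-(c' / 2 * M)) := by gcongr
      _ = _ := by ring

end Pool.Agent.J4H4.LG
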